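import Pool.Agent.MP_e299c6_nt.Defs

set_option autoImplicit false

namespace Pool.Agent.MP_e299c6_nt

open Filter Topology

/-- shift -/
def sh (n : ℕ) (d : ℕ → Bool) : ℕ → Bool := fun i => d (n + i)

/-- xor with a constant -/
def xo (b : Bool) (d : ℕ → Bool) : ℕ → Bool := fun i => xor b (d i)

/-- the relevant tail after the index `n` -/
def tl (n : ℕ) (d : ℕ → Bool) : ℕ → Bool := fun i => xor (d n) (d (n + 1 + i))

/-- concatenation -/
def cat (n : ℕ) (e s : ℕ → Bool) : ℕ → Bool := fun i => if i < n then e i else s (i - n)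

/-- strictly univoque sequences -/
def Uq (q : ℝ) (d : ℕ → Bool) : Prop := ∀ n, val q (tl n d) < 1

/-- weakly univoque sequences -/
def Wq (q : ℝ) (d : ℕ → Bool) : Prop := ∀ n, val q (tl n d) ≤ 1

/-- lexicographic order -/
def Lt (s t : ℕ → Bool) : Prop := ∃ j, (∀ i < j, s i = t i) ∧ s j = false ∧ t j = true

theorem term_nonneg {q : ℝ} (hq : 1 < q) (d : ℕ → Bool) (i : ℕ) :
    0 ≤ (if d i then (1 : ℝ) else 0) / q ^ (i + 1) := by
  have : 0 < q ^ (i + 1) := by positivity
  split_ifs <;> positivity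

theorem term_le {q : ℝ} (hq : 1 < q) (d : ℕ → Bool) (i : ℕ) :
    (if d i then (1 : ℝ) else 0) / q ^ (i + 1) ≤ 1 / q ^ (i + 1) := by
  have : 0 < q ^ (i + 1) := by positivity
  gcongr
  split_ifs <;> norm_num

theorem summable_one {q : ℝ} (hq : 1 < q) : Summable (fun i : ℕ => 1 / q ^ (i + 1)) := by
  have h : Summable (fun i : ℕ => (1 / q) ^ i) :=
    summable_geometric_of_lt_one (by positivity) (by rw [div_lt_one (by linarith)]; exact hq)
  have h2 := (summable_nat_add_iff 1).mpr h
  refine h2.congr (fun i => ?_)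
  rw [one_div_pow]

theorem summable_term {q : ℝ} (hq : 1 < q) (d : ℕ → Bool) :
    Summable (fun i : ℕ => (if d i then (1 : ℝ) else 0) / q ^ (i + 1)) :=
  Summable.of_nonneg_of_le (term_nonneg hq d) (term_le hq d) (summable_one hq)

theorem tsum_one {q : ℝ} (hq : 1 < q) : ∑' i : ℕ, 1 / q ^ (i + 1) = 1 / (q - 1) := by
  have h1 : ∀ i : ℕ, 1 / q ^ (i + 1) = (1 / q) ^ i * (1 / q) := by
    intro i
    rw [← pow_succ, one_div_pow]
  have h0 : 0 < q := by linarith
  have h2 : (1 / q) < 1 := by rw [div_lt_one (by linarith)]; exact hq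
  calc ∑' i : ℕ, 1 / q ^ (i + 1) = ∑' i : ℕ, (1 / q) ^ i * (1 / q) := by simp_rw [h1]
    _ = (∑' i : ℕ, (1 / q) ^ i) * (1 / q) := tsum_mul_right
    _ = (1 - 1 / q)⁻¹ * (1 / q) := by rw [tsum_geometric_of_lt_one (by positivity) h2]
    _ = 1 / (q - 1) := by
      have : q - 1 ≠ 0 := by linarith
      field_simp

theorem val_nonneg {q : ℝ} (hq : 1 < q) (d : ℕ → Bool) : 0 ≤ val q d :=
  tsum_nonneg (term_nonneg hq d)

theorem val_le {q : ℝ} (hq : 1 < q) (d : ℕ → Bool) : val q d ≤ 1 / (q - 1) := by
  rw [← tsum_one hq]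
  exact Summable.tsum_le_tsum (term_le hq d) (summable_term hq d) (summable_one hq)

theorem val_true {q : ℝ} (hq : 1 < q) : val q (fun _ => true) = 1 / (q - 1) := by
  rw [← tsum_one hq]; simp [val]

theorem val_false (q : ℝ) : val q (fun _ => false) = 0 := by
  simp [val]

theorem xo_false (d : ℕ → Bool) : xo false d = d := by
  funext i; simp [xo]

theorem xo_xo (b : Bool) (d : ℕ → Bool) : xo b (xo b d) = d := by
  funext i; simp only [xo]; cases b <;> cases d i <;> rfl

theorem val_xo_true {q : ℝ} (hq : 1 < q) (d : ℕ → Bool) :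
    val q (xo true d) = 1 / (q - 1) - val q d := by
  have h : val q (xo true d) + val q d = 1 / (q - 1) := by
    rw [← tsum_one hq, val, val, ← Summable.tsum_add (summable_term hq _) (summable_term hq _)]
    congr 1
    funext i
    simp only [xo]
    rcases Bool.eq_false_or_eq_true (d i) with h | h <;> simp [h]
  linarith

theorem val_split {q : ℝ} (hq : 1 < q) (d : ℕ → Bool) (n : ℕ) :
    val q d = (∑ i ∈ Finset.range n, (if d i then (1 : ℝ) else 0) / q ^ (i + 1))
      + val q (sh n d) / q ^ n := by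
  have h := (summable_term hq d).sum_add_tsum_nat_add n
  rw [val, ← h]
  congr 1
  rw [val, ← tsum_div_const]
  congr 1
  funext i
  simp only [sh]
  rw [div_div, ← pow_add, add_comm i n]
  congr 2
  ring

theorem val_succ {q : ℝ} (hq : 1 < q) (d : ℕ → Bool) :
    val q d = ((if d 0 then (1 : ℝ) else 0) + val q (sh 1 d)) / q := by
  have := val_split hq d 1
  rw [this]
  simp
  ring

theorem sh_sh (m n : ℕ) (d : ℕ → Bool) : sh m (sh n d) = sh (n + m) d := by
  funext i; simp only [sh]; congr 1; ring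

theorem sh_zero (d : ℕ → Bool) : sh 0 d = d := by
  funext i; simp [sh]

theorem val_agree {q : ℝ} (hq : 1 < q) {d d' : ℕ → Bool} {n : ℕ} (h : ∀ i < n, d i = d' i) :
    val q d - val q d' = (val q (sh n d) - val q (sh n d')) / q ^ n := by
  rw [val_split hq d n, val_split hq d' n]
  have : ∑ i ∈ Finset.range n, (if d i then (1 : ℝ) else 0) / q ^ (i + 1)
      = ∑ i ∈ Finset.range n, (if d' i then (1 : ℝ) else 0) / q ^ (i + 1) := by
    apply Finset.sum_congr rfl
    intro i hi
    rw [h i (Finset.mem_range.mp hi)]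
  rw [this]
  ring

theorem val_diff {q : ℝ} (hq : 1 < q) {d d' : ℕ → Bool} {m : ℕ} (h : ∀ i < m, d i = d' i)
    (h0 : d m = false) (h1 : d' m = true) :
    val q d' - val q d = (1 + val q (sh (m + 1) d') - val q (sh (m + 1) d)) / q ^ (m + 1) := by
  have e1 := val_agree hq h
  have e2 := val_succ hq (sh m d)
  have e3 := val_succ hq (sh m d')
  have e4 : sh m d 0 = false := by simpa [sh] using h0
  have e5 : sh m d' 0 = true := by simpa [sh] using h1
  rw [e4, sh_sh] at e2
  rw [e5, sh_sh] at e3
  have hq0 : q ≠ 0 := by linarith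
  have : val q d' - val q d = (val q (sh m d') - val q (sh m d)) / q ^ m := by
    have : val q d' - val q d = - (val q d - val q d') := by ring
    rw [this, e1]; ring
  rw [this, e2, e3]
  simp
  field_simp
  ring

theorem val_one_step_mono {q q' : ℝ} (hq : 1 < q) (hqq : q < q') (d : ℕ → Bool) :
    val q' d ≤ (q / q') * val q d := by
  have hq' : 1 < q' := by linarith
  rw [val, val, ← tsum_mul_left]
  refine Summable.tsum_le_tsum (fun i => ?_) (summable_term hq' d) ((summable_term hq d).mul_left _)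
  have h0 : 0 < q := by linarith
  have h0' : 0 < q' := by linarith
  split_ifs
  · rw [pow_succ, pow_succ]
    rw [div_mul_div_comm, div_le_div_iff₀ (by positivity) (by positivity)]
    have : q ^ i ≤ q' ^ i := by gcongr
    calc 1 * (q' * (q ^ i * q)) = q ^ i * (q * q') := by ring
      _ ≤ q' ^ i * (q * q') := by gcongr
      _ = q * 1 * (q' ^ i * q') := by ring
  · simp

theorem val_anti {q q' : ℝ} (hq : 1 < q) (hqq : q < q') (d : ℕ → Bool) :
    val q' d ≤ val q d := by
  have h := val_one_step_mono hq hqq d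
  have h0 := val_nonneg hq d
  have : q / q' ≤ 1 := by rw [div_le_one (by linarith)]; exact hqq.le
  nlinarith

theorem val_anti' {q q' : ℝ} (hq : 1 < q) (hqq : q ≤ q') (d : ℕ → Bool) :
    val q' d ≤ val q d := by
  rcases hqq.eq_or_lt with h | h
  · rw [h]
  · exact val_anti hq h d

theorem val_anti_strict {q q' : ℝ} (hq : 1 < q) (hqq : q < q') {d : ℕ → Bool}
    (hd : 0 < val q d) : val q' d < val q d := by
  have h := val_one_step_mono hq hqq d
  have : q / q' < 1 := by rw [div_lt_one (by linarith)]; exact hqq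
  nlinarith

theorem val_pos_of_true {q : ℝ} (hq : 1 < q) {d : ℕ → Bool} {i : ℕ} (h : d i = true) :
    0 < val q d := by
  have h1 : (if d i then (1 : ℝ) else 0) / q ^ (i + 1) ≤ val q d :=
    (summable_term hq d).le_tsum i (fun j _ => term_nonneg hq d j)
  rw [h] at h1
  have : 0 < q ^ (i + 1) := by positivity
  have h2 : 0 < (if true = true then (1 : ℝ) else 0) / q ^ (i + 1) := by
    simp; positivity
  linarith

theorem exists_true_of_val_pos {q : ℝ} {d : ℕ → Bool} (h : 0 < val q d) : ∃ i, d i = true := by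
  by_contra hne
  push Not at hne
  have : d = fun _ => false := by
    funext i; simpa using hne i
  rw [this, val_false] at h
  exact lt_irrefl _ h

theorem val_pos_of_val_pos {q q' : ℝ} (hq' : 1 < q') {d : ℕ → Bool} (h : 0 < val q d) :
    0 < val q' d := by
  obtain ⟨i, hi⟩ := exists_true_of_val_pos h
  exact val_pos_of_true hq' hi

theorem eq_false_of_val_le {q : ℝ} (hq : 1 < q) {d : ℕ → Bool} (h : val q d ≤ 0) :
    d = fun _ => false := by
  funext i
  by_contra hne
  have : d i = true := by simpa using hne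
  have := val_pos_of_true hq this
  linarith

/-- uniform closeness of values in nearby bases -/
theorem val_unif {q q' : ℝ} (hq : 1 < q) (hqq : q < q') (d : ℕ → Bool) :
    val q d ≤ val q' d + (1 / (q - 1) - 1 / (q' - 1)) := by
  have h1 := val_anti hq hqq (xo true d)
  rw [val_xo_true hq, val_xo_true (by linarith)] at h1
  linarith

theorem continuousOn_val : ContinuousOn (fun z : ℝ × (ℕ → Bool) => val z.1 z.2)
    {z | 1 < z.1} := by
  intro z hz
  have hz' : 1 < z.1 := hz
  obtain ⟨r, hr1, hr2⟩ := exists_between hz'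
  have hopen : {w : ℝ × (ℕ → Bool) | r < w.1} ∈ 𝓝 z :=
    (isOpen_lt continuous_const continuous_fst).mem_nhds hr2
  refine ContinuousAt.continuousWithinAt ?_
  refine ContinuousOn.continuousAt ?_ hopen
  refine continuousOn_tsum (u := fun i : ℕ => 1 / r ^ (i + 1)) ?_ (summable_one hr1) ?_
  · intro i
    apply ContinuousOn.div
    · have : Continuous (fun w : ℝ × (ℕ → Bool) => w.2 i) :=
        (continuous_apply i).comp continuous_snd
      have h2 : Continuous (fun b : Bool => if b then (1 : ℝ) else 0) :=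
        continuous_of_discreteTopology
      exact (h2.comp this).continuousOn
    · exact (continuous_fst.pow _).continuousOn
    · intro w hw
      have : r < w.1 := hw
      have : 0 < w.1 := by linarith
      positivity
  · intro i w hw
    have hw' : r < w.1 := hw
    have h0 : 0 < r := by linarith
    have h0' : 0 < w.1 := by linarith
    rw [Real.norm_eq_abs, abs_of_nonneg (term_nonneg (by linarith) w.2 i)]
    refine (term_le (by linarith) w.2 i).trans ?_
    gcongr

theorem tendsto_val {ι : Type*} {l : Filter ι} {q : ℝ} {d : ℕ → Bool} (hq : 1 < q)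
    {f : ι → ℝ} {g : ι → ℕ → Bool} (hf : Tendsto f l (𝓝 q)) (hg : Tendsto g l (𝓝 d)) :
    Tendsto (fun i => val (f i) (g i)) l (𝓝 (val q d)) := by
  have h1 : ContinuousAt (fun z : ℝ × (ℕ → Bool) => val z.1 z.2) (q, d) :=
    continuousOn_val.continuousAt ((isOpen_lt continuous_const continuous_fst).mem_nhds hq)
  have h2 : Tendsto (fun i => (f i, g i)) l (𝓝 (q, d)) := by
    rw [nhds_prod_eq]; exact hf.prodMk hg
  exact h1.tendsto.comp h2

theorem continuousOn_val_base (d : ℕ → Bool) {a b : ℝ} (ha : 1 < a) :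
    ContinuousOn (fun q => val q d) (Set.Icc a b) := by
  intro q hq
  have : Tendsto (fun q' => val q' d) (𝓝 q) (𝓝 (val q d)) :=
    tendsto_val (by linarith [hq.1]) tendsto_id tendsto_const_nhds
  exact ContinuousAt.continuousWithinAt this

theorem exists_base {a b y : ℝ} (ha : 1 < a) (hab : a < b) {d : ℕ → Bool}
    (h1 : val b d < y) (h2 : y < val a d) : ∃ q, a < q ∧ q < b ∧ val q d = y := by
  have h := intermediate_value_Ioo' hab.le (continuousOn_val_base d ha)
  obtain ⟨q, hq, hqy⟩ := h ⟨h1, h2⟩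
  exact ⟨q, hq.1, hq.2, hqy⟩

theorem continuous_tl (n : ℕ) : Continuous (tl n) := by
  refine continuous_pi (fun i => ?_)
  have h2 : Continuous (fun b : Bool × Bool => xor b.1 b.2) := continuous_of_discreteTopology
  have h3 : Continuous (fun d : ℕ → Bool => (d n, d (n + 1 + i))) :=
    Continuous.prodMk (continuous_apply n) (continuous_apply (n + 1 + i))
  exact h2.comp h3

theorem Wq.uq {q q' : ℝ} (hq : 1 < q) (hqq : q < q') {d : ℕ → Bool} (h : Wq q d) : Uq q' d := by
  intro n
  have h1 := val_one_step_mono hq hqq (tl n d)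
  have : q / q' < 1 := by rw [div_lt_one (by linarith)]; exact hqq
  have h3 := h n
  have h4 := val_nonneg hq (tl n d)
  have h5 : 0 < q / q' := div_pos (by linarith) (by linarith)
  nlinarith

theorem Uq.wq {q : ℝ} {d : ℕ → Bool} (h : Uq q d) : Wq q d := fun n => (h n).le

theorem Uq.mono {q q' : ℝ} (hq : 1 < q) (hqq : q ≤ q') {d : ℕ → Bool} (h : Uq q d) :
    Uq q' d := by
  rcases hqq.eq_or_lt with h' | h'
  · rw [← h']; exact h
  · exact h.wq.uq hq h'

theorem tl_eq (n : ℕ) (d : ℕ → Bool) : tl n d = xo (d n) (sh (n + 1) d) := rfl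

theorem tl_tl (j n : ℕ) (d : ℕ → Bool) : tl j (tl n d) = tl (n + 1 + j) d := by
  funext i
  simp only [tl]
  have : n + 1 + (j + 1 + i) = n + 1 + j + 1 + i := by ring
  rw [this]
  cases d n <;> cases d (n + 1 + j) <;> cases d (n + 1 + j + 1 + i) <;> rfl

theorem tl_xo (j : ℕ) (b : Bool) (d : ℕ → Bool) : tl j (xo b d) = tl j d := by
  funext i
  simp only [tl, xo]
  cases b <;> cases d j <;> cases d (j + 1 + i) <;> rfl

theorem tl_sh (j n : ℕ) (d : ℕ → Bool) : tl j (sh n d) = tl (n + j) d := by
  funext i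
  simp only [tl, sh]
  congr 2
  ring

theorem sh_cat (n : ℕ) (e s : ℕ → Bool) : sh n (cat n e s) = s := by
  funext i
  simp [sh, cat]

theorem cat_agree {n : ℕ} (e s : ℕ → Bool) : ∀ i < n, cat n e s i = e i := by
  intro i hi
  simp [cat, hi]

theorem cat_sh (n : ℕ) (e : ℕ → Bool) : cat n e (sh n e) = e := by
  funext i
  simp only [cat, sh]
  split_ifs with h
  · rfl
  · congr 1; omega

end Pool.Agent.MP_e299c6_nt
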