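import Pool.Agent.MP_e299c6_nt.Per

set_option autoImplicit false

namespace Pool.Agent.MP_e299c6_nt

open Filter Topology

theorem tendsto_of_agree {e : ℕ → Bool} {g : ℕ → ℕ → Bool} (h : ∀ N, ∀ i < N, g N i = e i) :
    Tendsto g atTop (𝓝 e) := by
  rw [tendsto_pi_nhds]
  intro i
  refine tendsto_const_nhds.congr' ?_
  filter_upwards [eventually_gt_atTop i] with N hN
  exact (h N i hN).symm

theorem agree_of_tendsto {e : ℕ → Bool} {g : ℕ → ℕ → Bool} (h : Tendsto g atTop (𝓝 e)) (N : ℕ) :
    ∀ᶠ k in atTop, ∀ i < N, g k i = e i := by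
  rw [tendsto_pi_nhds] at h
  have h1 : ∀ i ∈ Finset.range N, ∀ᶠ k in atTop, g k i = e i := by
    intro i _
    have := h i
    rw [nhds_discrete, tendsto_pure] at this
    exact this
  have h2 := (Finset.range N).eventually_all (l := atTop) (p := fun i k => g k i = e i)
  have h3 := h2.mpr h1
  filter_upwards [h3] with k hk
  intro i hi
  exact hk i (Finset.mem_range.mpr hi)

/-- there is an `N` such that sequences agreeing with `e` below `N` satisfy an eventual
property -/
theorem exists_agree_of_eventually {e : ℕ → Bool} {p : (ℕ → Bool) → Prop}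
    (h : ∀ᶠ d in 𝓝 e, p d) : ∃ N, ∀ d : ℕ → Bool, (∀ i < N, d i = e i) → p d := by
  by_contra hcon
  push Not at hcon
  choose g hg hp using hcon
  have ht := tendsto_of_agree hg
  obtain ⟨N, hN⟩ := (ht.eventually h).exists
  exact hp N hN

theorem eventually_val_lt {q y : ℝ} (hq : 1 < q) {e : ℕ → Bool} (h : val q e < y) :
    ∀ᶠ d in 𝓝 e, val q d < y := by
  have ht : Tendsto (fun d => val q d) (𝓝 e) (𝓝 (val q e)) :=
    tendsto_val hq tendsto_const_nhds tendsto_id
  exact ht.eventually (gt_mem_nhds h)

theorem cover {q : ℝ} (hq : 1 < q) (hq2 : q ≤ 2) {e : ℕ → Bool} {n0 : ℕ} (he : e n0 = false)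
    (hc : val q (sh (n0 + 1) e) = 1) (hn : ∀ n < n0, val q (tl n e) < 1)
    (hP : ∀ N, ∃ P : ℕ → Bool, (∀ i < N, P i = sh (n0 + 1) e i) ∧ val q P < 1 ∧
      ∀ q' : ℝ, 1 < q' → val q' P < 1 → Uq q' P) :
    ∀ᶠ y in 𝓝 (val q e), ∃ q' ∈ univoqueBases y, q' < q := by
  choose g hg1 hg2 hg3 using hP
  have hgt : Tendsto g atTop (𝓝 (sh (n0 + 1) e)) := tendsto_of_agree hg1
  have hdt : Tendsto (fun N => cat (n0 + 1) e (g N)) atTop (𝓝 e) := by
    rw [tendsto_pi_nhds]
    intro i
    refine tendsto_const_nhds.congr' ?_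
    filter_upwards [eventually_gt_atTop i] with N hN
    simp only [cat]
    split_ifs with h
    · rfl
    · rw [hg1 N (i - (n0 + 1)) (by omega)]
      simp only [sh]
      congr 1; omega
  -- uniform neighbourhoods
  have F1 : ∀ᶠ z in 𝓝 q ×ˢ 𝓝 e, ∀ n ∈ Finset.range n0, val z.1 (tl n z.2) < 1 := by
    rw [Finset.eventually_all]
    intro n hn'
    have h1 : Tendsto (fun z : ℝ × (ℕ → Bool) => val z.1 (tl n z.2)) (𝓝 q ×ˢ 𝓝 e)
        (𝓝 (val q (tl n e))) := by
      refine tendsto_val hq tendsto_fst ?_
      exact ((continuous_tl n).tendsto e).comp tendsto_snd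
    exact h1.eventually (gt_mem_nhds (hn n (Finset.mem_range.mp hn')))
  rw [eventually_prod_iff] at F1
  obtain ⟨pa, hpa, pb, hpb, hab⟩ := F1
  rw [Metric.eventually_nhds_iff] at hpa
  obtain ⟨ε, hε, hpa⟩ := hpa
  set p0 : ℝ := max ((1 + q) / 2) (q - ε / 2) with hp0
  have hp01 : 1 < p0 := lt_of_lt_of_le (by linarith) (le_max_left _ _)
  have hp0q : p0 < q := max_lt (by linarith) (by linarith)
  have hpa' : ∀ q' : ℝ, p0 ≤ q' → q' ≤ q → pa q' := by
    intro q' h1 h2
    apply hpa
    rw [Real.dist_eq, abs_lt]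
    have : q - ε / 2 ≤ p0 := le_max_right _ _
    constructor <;> linarith
  have hc0 : 1 < val p0 (sh (n0 + 1) e) := by
    have h1 : 0 < val p0 (sh (n0 + 1) e) :=
      val_pos_of_val_pos hp01 (q := q) (by rw [hc]; norm_num)
    have := val_anti_strict hp01 hp0q h1
    linarith
  have F2 : ∀ᶠ N in atTop, 1 < val p0 (g N) := by
    have : Tendsto (fun N => val p0 (g N)) atTop (𝓝 (val p0 (sh (n0 + 1) e))) :=
      tendsto_val hp01 tendsto_const_nhds hgt
    exact this.eventually (lt_mem_nhds hc0)
  obtain ⟨N, hN1, hN2⟩ := (F2.and (hdt.eventually hpb)).exists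
  set P := g N with hPdef
  set D := cat (n0 + 1) e P with hDdef
  have hDag : ∀ i < n0 + 1, D i = e i := cat_agree e P
  have hDsh : sh (n0 + 1) D = P := sh_cat _ _ _
  obtain ⟨p, hp1, hp2, hp3⟩ := exists_base hp01 hp0q (hg2 N) hN1
  have hp1' : 1 < p := by linarith
  have hlow : val q D < val q e := by
    have h1 := val_agree hq hDag
    rw [hDsh, hc] at h1
    have h2 : (val q P - 1) / q ^ (n0 + 1) < 0 := by
      apply div_neg_of_neg_of_pos
      · linarith [hg2 N]
      · positivity
    linarith
  have hhigh : val q e < val p D := by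
    rw [val_split hq e (n0 + 1), val_split hp1' D (n0 + 1), hDsh, hc, hp3]
    have h1 : ∑ i ∈ Finset.range (n0 + 1), (if e i then (1 : ℝ) else 0) / q ^ (i + 1)
        ≤ ∑ i ∈ Finset.range (n0 + 1), (if D i then (1 : ℝ) else 0) / p ^ (i + 1) := by
      apply Finset.sum_le_sum
      intro i hi
      rw [hDag i (Finset.mem_range.mp hi)]
      have : 0 < p := by linarith
      have : 0 < q := by linarith
      have h2 : p ^ (i + 1) ≤ q ^ (i + 1) := by gcongr
      split_ifs
      · gcongr
      · simp
    have h2 : 1 / q ^ (n0 + 1) < 1 / p ^ (n0 + 1) := by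
      have : 0 < p := by linarith
      have h3 : p ^ (n0 + 1) < q ^ (n0 + 1) := pow_lt_pow_left₀ hp2 this.le (by omega)
      apply one_div_lt_one_div_of_lt (by positivity) h3
    linarith
  filter_upwards [Ioo_mem_nhds hlow hhigh] with y hy
  obtain ⟨q', hq1, hq'2, hq3⟩ := exists_base hp1' hp2 hy.1 hy.2
  refine ⟨q', ?_, hq'2⟩
  rw [mem_univoqueBases_iff]
  refine ⟨by linarith, by linarith, D, ?_, hq3⟩
  have hvP : val q' P < 1 := by
    rw [← hp3]
    exact val_anti_strict hp1' hq1 (by rw [hp3]; norm_num)
  have huP : Uq q' P := hg3 N q' (by linarith) hvP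
  intro n
  rcases lt_trichotomy n n0 with h | h | h
  · exact hab (hpa' q' (by linarith) (by linarith)) hN2 n (Finset.mem_range.mpr h)
  · have h1 : tl n D = P := by
      rw [tl_eq, h, hDsh, hDag n0 (by omega), he, xo_false]
    rw [h1]; exact hvP
  · have h1 : tl n D = tl (n - (n0 + 1)) P := by
      rw [← hDsh, tl_sh]
      congr 1
      omega
    rw [h1]
    exact huP _

theorem val_xo_sub {q : ℝ} (hq : 1 < q) (b : Bool) (s t : ℕ → Bool) :
    val q (xo b s) - val q (xo b t) = (if b then -1 else 1) * (val q s - val q t) := by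
  cases b
  · rw [xo_false, xo_false]; simp
  · rw [val_xo_true hq, val_xo_true hq]; simp

theorem near_lt {p q : ℝ} (hp : 1 < p) (hpq : p < q) (hq2 : q ≤ 2) {d : ℕ → Bool}
    (hd : Uq p d) (hx : 0 < val p d) :
    ∀ᶠ y in 𝓝 (val p d), ∃ q' ∈ univoqueBases y, q' < q := by
  classical
  have hq : 1 < q := by linarith
  have hqd : val q d < val p d := val_anti_strict hp hpq hx
  by_cases hα : ∃ p'' : ℝ, 1 < p'' ∧ p'' < p ∧ Uq p'' d
  · obtain ⟨p'', h1, h2, h3⟩ := hα
    have h4 : val p d < val p'' d := val_anti_strict h1 h2 (val_pos_of_val_pos h1 hx)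
    filter_upwards [Ioo_mem_nhds hqd h4] with y hy
    obtain ⟨q', hq1, hq'2, hq3⟩ := exists_base h1 (h2.trans hpq) hy.1 hy.2
    refine ⟨q', ?_, hq'2⟩
    rw [mem_univoqueBases_iff]
    exact ⟨by linarith, by linarith, d, h3.mono h1 hq1.le, hq3⟩
  · -- the sup of the tails is one
    have hβ : ∀ v < 1, ∃ n, v < val p (tl n d) := by
      intro v hv
      by_contra hcon
      push Not at hcon
      apply hα
      -- choose a base slightly smaller
      have hcont : Tendsto (fun r : ℝ => v + (1 / (r - 1) - 1 / (p - 1))) (𝓝 p)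
          (𝓝 (v + (1 / (p - 1) - 1 / (p - 1)))) := by
        have h1 : ContinuousAt (fun r : ℝ => v + (1 / (r - 1) - 1 / (p - 1))) p := by
          have : p - 1 ≠ 0 := by linarith
          fun_prop (disch := assumption)
        exact h1
      rw [sub_self, add_zero] at hcont
      have h2 := hcont.eventually (gt_mem_nhds hv)
      rw [Metric.eventually_nhds_iff] at h2
      obtain ⟨ε, hε, h2⟩ := h2
      set r : ℝ := max ((1 + p) / 2) (p - ε / 2) with hr
      have hr1 : 1 < r := lt_of_lt_of_le (by linarith) (le_max_left _ _)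
      have hrp : r < p := max_lt (by linarith) (by linarith)
      refine ⟨r, hr1, hrp, ?_⟩
      intro n
      have h3 := val_unif hr1 hrp (tl n d)
      have h4 := hcon n
      have h5 : v + (1 / (r - 1) - 1 / (p - 1)) < 1 := by
        apply h2
        rw [Real.dist_eq, abs_lt]
        have : p - ε / 2 ≤ r := le_max_right _ _
        constructor <;> linarith
      linarith
    obtain ⟨N, hN⟩ := exists_agree_of_eventually (eventually_val_lt hq hqd)
    -- a bound for the first tails
    obtain ⟨v0, hv0, hv01⟩ : ∃ v0 < 1, ∀ i ≤ N, val p (tl i d) ≤ v0 := by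
      have hne : (Finset.range (N + 1)).Nonempty := ⟨0, by simp⟩
      refine ⟨(Finset.range (N + 1)).sup' hne (fun i => val p (tl i d)), ?_, ?_⟩
      · rw [Finset.sup'_lt_iff]
        intro i _
        exact hd i
      · intro i hi
        exact Finset.le_sup' (fun i => val p (tl i d)) (Finset.mem_range.mpr (by omega))
    obtain ⟨n1, hn1⟩ := hβ v0 hv0
    set v := val p (tl n1 d) with hv
    have hv1 : v < 1 := hd n1
    have hex : ∃ n, v < val p (tl n d) := hβ v hv1
    have hns := Nat.find_spec hex
    have hmin : ∀ i < Nat.find hex, val p (tl i d) ≤ v := fun i hi => by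
      have := Nat.find_min hex hi
      simpa using this
    set n := Nat.find hex with hndef
    have hNn : N < n := by
      by_contra hle
      push Not at hle
      have := hv01 n hle
      linarith
    -- choose the new tail
    obtain ⟨n', hn'1, hn'2⟩ : ∃ n', 0 < val p (xo (d n) (tl n' d)) - val p (sh (n + 1) d) ∧
        val p (xo (d n) (tl n' d)) - val p (sh (n + 1) d) < 1 - v := by
      have hshn : sh (n + 1) d = xo (d n) (tl n d) := by
        rw [tl_eq, xo_xo]
      rw [hshn]
      rcases Bool.eq_false_or_eq_true (d n) with h | h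
      · refine ⟨n1, ?_, ?_⟩
        · rw [val_xo_sub hp, h]
          simp only [if_true]
          linarith
        · rw [val_xo_sub hp, h]
          simp only [if_true]
          have := hd n
          linarith
      · obtain ⟨n2, hn2⟩ := hβ _ (hd n)
        refine ⟨n2, ?_, ?_⟩
        · rw [val_xo_sub hp, h]
          simp only [Bool.false_eq_true, if_false]
          linarith
        · rw [val_xo_sub hp, h]
          simp only [Bool.false_eq_true, if_false]
          have := hd n2
          linarith
    set δ := val p (xo (d n) (tl n' d)) - val p (sh (n + 1) d) with hδ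
    set D := cat (n + 1) d (xo (d n) (tl n' d)) with hDdef
    have hDag : ∀ i < n + 1, D i = d i := cat_agree _ _
    have hDsh : sh (n + 1) D = xo (d n) (tl n' d) := sh_cat _ _ _
    have hDu : Uq p D := by
      intro i
      rcases lt_trichotomy i n with h | h | h
      · have h1 : ∀ j < n - i, sh (i + 1) D j = sh (i + 1) d j := by
          intro j hj
          simp only [sh]
          exact hDag _ (by omega)
        have h2 := val_agree hp h1
        rw [sh_sh, sh_sh] at h2
        have h3 : i + 1 + (n - i) = n + 1 := by omega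
        rw [h3, hDsh, ← hδ] at h2
        have h4 := val_xo_sub hp (d i) (sh (i + 1) D) (sh (i + 1) d)
        rw [h2] at h4
        have h5 : tl i D = xo (d i) (sh (i + 1) D) := by
          rw [tl_eq, hDag i (by omega)]
        rw [h5]
        rw [← tl_eq i d] at h4
        have h6 := hmin i h
        have h7 : 1 ≤ p ^ (n - i) := one_le_pow₀ hp.le
        have h8 : 0 < δ / p ^ (n - i) := div_pos hn'1 (by linarith)
        have h9 : δ / p ^ (n - i) ≤ δ := div_le_self hn'1.le h7
        rcases Bool.eq_false_or_eq_true (d i) with h | h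
        · rw [h] at h4 ⊢
          simp only [if_true] at h4
          linarith
        · rw [h] at h4 ⊢
          simp only [Bool.false_eq_true, if_false] at h4
          linarith
      · rw [tl_eq, h, hDsh, hDag n (by omega), xo_xo]
        exact hd n'
      · have h1 : tl i D = tl (i - (n + 1)) (sh (n + 1) D) := by
          rw [tl_sh]; congr 1; omega
        rw [h1, hDsh, tl_xo, tl_tl]
        exact hd _
    have hlow : val q D < val p d := hN D (fun i hi => hDag i (by omega))
    have hhigh : val p d < val p D := by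
      have h1 := val_agree hp hDag
      rw [hDsh, ← hδ] at h1
      have : 0 < δ / p ^ (n + 1) := div_pos hn'1 (by positivity)
      linarith
    filter_upwards [Ioo_mem_nhds hlow hhigh] with y hy
    obtain ⟨q', hq1, hq'2, hq3⟩ := exists_base hp hpq hy.1 hy.2
    refine ⟨q', ?_, hq'2⟩
    rw [mem_univoqueBases_iff]
    exact ⟨by linarith, by linarith, D, hDu.mono hp hq1.le, hq3⟩

end Pool.Agent.MP_e299c6_nt
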