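import Mathlib

set_option autoImplicit false

namespace Pool.Agent.MP_e299c6_nt

/-- The value `∑ d_i q^{-i}` (`i ≥ 1`) of the digit sequence `d` in base `q`; the digit
`d_{i+1}` is `d i`, with `true` standing for `1` and `false` for `0`. -/
noncomputable def val (q : ℝ) (d : ℕ → Bool) : ℝ :=
  ∑' i : ℕ, (if d i then (1 : ℝ) else 0) / q ^ (i + 1)

/-- The set of bases `q ∈ (1,2]` in which `x` has exactly one expansion. -/
def univoqueBases (x : ℝ) : Set ℝ :=
  {q : ℝ | 1 < q ∧ q ≤ 2 ∧ ∃! d : ℕ → Bool, val q d = x}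

/-- The smallest univoque base of `x`. -/
noncomputable def qs (x : ℝ) : ℝ := sInf (univoqueBases x)

end Pool.Agent.MP_e299c6_nt
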