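import Pool.Agent.MP_e299c6_nt.Cover

set_option autoImplicit false

namespace Pool.Agent.MP_e299c6_nt

open Filter Topology

theorem bddBelow_univoqueBases (x : ℝ) : BddBelow (univoqueBases x) :=
  ⟨1, fun _ h => h.1.le⟩

theorem qs_le {x q : ℝ} (h : q ∈ univoqueBases x) : qs x ≤ q :=
  csInf_le (bddBelow_univoqueBases x) h

/-- if `q_s(x) = q` then `x` has a weakly univoque expansion in base `q` -/
theorem exists_wq {x q : ℝ} (hq : 1 < q) (hx : qs x = q) : ∃ e, Wq q e ∧ val q e = x := by
  have hne : (univoqueBases x).Nonempty := by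
    by_contra h
    rw [Set.not_nonempty_iff_eq_empty] at h
    rw [qs, h, Real.sInf_empty] at hx
    linarith
  have h1 : ∀ k : ℕ, ∃ r ∈ univoqueBases x, r < q + 1 / ((k : ℝ) + 1) := by
    intro k
    have : sInf (univoqueBases x) < q + 1 / ((k : ℝ) + 1) := by
      change qs x < _
      rw [hx]
      have : 0 < 1 / ((k : ℝ) + 1) := by positivity
      linarith
    exact exists_lt_of_csInf_lt hne this
  choose r hr hrk using h1
  have h2 : ∀ k, ∃ d : ℕ → Bool, Uq (r k) d ∧ val (r k) d = x :=
    fun k => (mem_univoqueBases_iff.mp (hr k)).2.2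
  choose d hd hdx using h2
  have hrt : Tendsto r atTop (𝓝 q) := by
    have h3 : Tendsto (fun k : ℕ => q + 1 / ((k : ℝ) + 1)) atTop (𝓝 (q + 0)) :=
      tendsto_const_nhds.add tendsto_one_div_add_atTop_nhds_zero_nat
    rw [add_zero] at h3
    refine tendsto_of_tendsto_of_tendsto_of_le_of_le tendsto_const_nhds h3 ?_ ?_
    · intro k
      have := qs_le (hr k)
      rw [hx] at this
      exact this
    · intro k
      exact (hrk k).le
  obtain ⟨e, φ, hφ, he⟩ := CompactSpace.tendsto_subseq d
  have hrφ : Tendsto (r ∘ φ) atTop (𝓝 q) := hrt.comp hφ.tendsto_atTop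
  refine ⟨e, ?_, ?_⟩
  · intro n
    have h4 : Tendsto (fun k => val ((r ∘ φ) k) (tl n ((d ∘ φ) k))) atTop (𝓝 (val q (tl n e))) :=
      tendsto_val hq hrφ (((continuous_tl n).tendsto e).comp he)
    exact le_of_tendsto' h4 (fun k => (hd (φ k) n).le)
  · have h4 : Tendsto (fun k => val ((r ∘ φ) k) ((d ∘ φ) k)) atTop (𝓝 (val q e)) :=
      tendsto_val hq hrφ he
    have h5 : (fun k => val ((r ∘ φ) k) ((d ∘ φ) k)) = fun _ => x := by
      funext k
      exact hdx (φ k)
    rw [h5] at h4
    exact tendsto_nhds_unique h4 tendsto_const_nhds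

theorem qs_eq_of_frequently {q x : ℝ} (hq : 1 < q) (hq2 : q ≤ 2) (hx : 0 < x)
    (hcl : ∃ᶠ y in 𝓝 x, qs y = q) : qs x = q := by
  classical
  -- no neighbourhood on which `q_s < q`
  have hno : ¬ ∀ᶠ y in 𝓝 x, ∃ q' ∈ univoqueBases y, q' < q := by
    intro h
    obtain ⟨y, hy1, q', hq', hlt⟩ := (hcl.and_eventually h).exists
    have := qs_le hq'
    linarith
  -- lower bound
  have hlow : ∀ p ∈ univoqueBases x, q ≤ p := by
    intro p hp
    by_contra hpq
    push Not at hpq
    obtain ⟨hp1, hp2, d, hd, hdx⟩ := mem_univoqueBases_iff.mp hp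
    apply hno
    rw [← hdx]
    exact near_lt hp1 hpq hq2 hd (by rw [hdx]; exact hx)
  -- it suffices to find univoque bases close to `q`
  by_contra hne
  have hfar : ¬ ∀ q'' : ℝ, q < q'' → ∃ p ∈ univoqueBases x, p < q'' := by
    intro h
    apply hne
    obtain ⟨p0, hp0, -⟩ := h (q + 1) (by linarith)
    apply le_antisymm
    · apply le_of_forall_gt
      intro q'' hq''
      obtain ⟨p, hp, hpq⟩ := h q'' hq''
      exact (qs_le hp).trans_lt hpq
    · exact le_csInf ⟨p0, hp0⟩ hlow
  have hqnot : q ∉ univoqueBases x := by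
    intro h
    exact hfar (fun q'' hq'' => ⟨q, h, hq''⟩)
  -- sequences
  obtain ⟨xs, hxs, hxq⟩ := exists_seq_forall_of_frequently hcl
  choose es hes hesx using fun k => exists_wq hq (hxq k)
  obtain ⟨e, φ, hφ, he⟩ := CompactSpace.tendsto_subseq es
  have hxφ : Tendsto (xs ∘ φ) atTop (𝓝 x) := hxs.comp hφ.tendsto_atTop
  have hex : val q e = x := by
    have h4 : Tendsto (fun k => val q ((es ∘ φ) k)) atTop (𝓝 (val q e)) :=
      tendsto_val hq tendsto_const_nhds he
    have h5 : (fun k => val q ((es ∘ φ) k)) = xs ∘ φ := by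
      funext k
      exact hesx (φ k)
    rw [h5] at h4
    exact tendsto_nhds_unique h4 hxφ
  have hWe : Wq q e := by
    intro n
    have h4 : Tendsto (fun k => val q (tl n ((es ∘ φ) k))) atTop (𝓝 (val q (tl n e))) :=
      tendsto_val hq tendsto_const_nhds (((continuous_tl n).tendsto e).comp he)
    exact le_of_tendsto' h4 (fun k => hes (φ k) n)
  have hUe : ¬ Uq q e := by
    intro h
    exact hqnot (mem_univoqueBases_iff.mpr ⟨hq, hq2, e, h, hex⟩)
  have hexn : ∃ n, 1 ≤ val q (tl n e) := by
    by_contra hall
    push Not at hall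
    exact hUe hall
  have hn0 := Nat.find_spec hexn
  have hmin : ∀ n < Nat.find hexn, val q (tl n e) < 1 := fun n hn => by
    have := Nat.find_min hexn hn
    simpa using this
  set n0 := Nat.find hexn with hn0def
  have hn01 : val q (tl n0 e) = 1 := le_antisymm (hWe n0) hn0
  rcases hq2.eq_or_lt with hqe | hqlt
  · -- base two
    subst hqe
    have h21 : (1 : ℝ) / (2 - 1) = 1 := by norm_num
    have hvt : val 2 (fun _ => true) = 1 := by
      rw [val_true (by norm_num : (1 : ℝ) < 2)]; norm_num
    -- the modified sequence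
    set s : ℕ → Bool := fun i => decide (0 < i) with hs
    set e' := cat n0 e s with he'
    have hag : ∀ i < n0, e' i = e i := cat_agree e s
    have hshs : sh n0 e' = s := sh_cat _ _ _
    have hs0 : s 0 = false := by simp [hs]
    have hs1 : sh 1 s = fun _ => true := by
      funext i; simp [sh, hs]
    have hvs : val 2 s = 1 / 2 := by
      rw [val_succ hq s, hs0, hs1, hvt]; simp
    have hve : val 2 (sh n0 e) = 1 / 2 := by
      rw [val_succ hq, sh_sh]
      have h0 : sh n0 e 0 = e n0 := by simp [sh]
      rw [h0]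
      rcases Bool.eq_false_or_eq_true (e n0) with h | h
      · rw [tl_eq, h, val_xo_true hq, h21] at hn01
        rw [h]
        have : val 2 (sh (n0 + 1) e) = 0 := by linarith
        rw [this]; simp
      · rw [tl_eq, h, xo_false] at hn01
        rw [h, hn01]; simp
    have hvxo : ∀ b : Bool, val 2 (xo b (sh n0 e')) = val 2 (xo b (sh n0 e)) := by
      intro b
      have h := val_xo_sub hq b (sh n0 e') (sh n0 e)
      rw [hshs, hvs, hve, sub_self, mul_zero] at h
      rw [hshs]
      linarith
    have he'x : val 2 e' = x := by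
      have h := val_agree hq hag
      rw [hshs, hvs, hve, sub_self, zero_div] at h
      linarith
    have he'n0 : e' n0 = false := by simp [he', cat, hs]
    have hsh' : sh (n0 + 1) e' = fun _ => true := by
      rw [← sh_sh, hshs, hs1]
    apply hno
    rw [← he'x]
    refine cover hq le_rfl he'n0 (by rw [hsh', hvt]) ?_ ?_
    · intro n hn
      have h1 : ∀ j < n0 - (n + 1), tl n e' j = tl n e j := by
        intro j hj
        simp only [tl]
        rw [hag n hn, hag (n + 1 + j) (by omega)]
      have h2 := val_agree hq h1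
      have h3 : ∀ f : ℕ → Bool, sh (n0 - (n + 1)) (tl n f) = xo (f n) (sh n0 f) := by
        intro f
        funext i
        simp only [sh, tl, xo]
        congr 2
        omega
      rw [h3, h3, hag n hn, hvxo, sub_self, zero_div] at h2
      have := hmin n hn
      linarith
    · intro N
      obtain ⟨P, hP1, hP2, hP3⟩ := exists_per_two N
      refine ⟨P, ?_, hP2, hP3⟩
      intro i hi
      rw [hP1 i hi, hsh']
  · -- base less than two
    have hxne : ∀ k, (xs ∘ φ) k ≠ x := by
      intro k hk
      apply hne
      rw [← hk]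
      exact hxq (φ k)
    by_cases hA : ∃ᶠ k in atTop, x < (xs ∘ φ) k
    · apply hfar
      intro q'' hq''
      set r := min q'' 2 with hr
      have hqr : q < r := lt_min hq'' hqlt
      have hr2 : r ≤ 2 := min_le_right _ _
      have h1 : val r e < x := by
        rw [← hex]
        exact val_anti_strict hq hqr (by rw [hex]; exact hx)
      have h2 : Tendsto (fun k => val r ((es ∘ φ) k)) atTop (𝓝 (val r e)) :=
        tendsto_val (by linarith) tendsto_const_nhds he
      obtain ⟨k, hk1, hk2⟩ := (hA.and_eventually (h2.eventually (gt_mem_nhds h1))).exists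
      have hk3 : val q ((es ∘ φ) k) = (xs ∘ φ) k := hesx (φ k)
      obtain ⟨p, hp1, hp2, hp3⟩ := exists_base hq hqr hk2 (by rw [hk3]; exact hk1)
      refine ⟨p, ?_, lt_of_lt_of_le hp2 (min_le_left _ _)⟩
      rw [mem_univoqueBases_iff]
      exact ⟨by linarith, by linarith, _, (hes (φ k)).uq hq hp1, hp3⟩
    · rw [not_frequently] at hA
      have hB : ∀ᶠ k in atTop, (xs ∘ φ) k < x := by
        filter_upwards [hA] with k hk
        exact lt_of_le_of_ne (not_lt.mp hk) (hxne k)
      -- the digit at n0 is zero
      have hen0 : e n0 = false := by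
        by_contra hcon
        have h1 : e n0 = true := by simpa using hcon
        obtain ⟨k, hk1, hk2⟩ := (hB.and (agree_of_tendsto he (n0 + 1))).exists
        have hk3 : val q ((es ∘ φ) k) = (xs ∘ φ) k := hesx (φ k)
        have h2 := val_agree hq hk2
        rw [hk3, hex] at h2
        have h3 := hes (φ k) n0
        have h4 : es (φ k) n0 = true := by
          have := hk2 n0 (by omega)
          rw [← h1, ← this]; rfl
        rw [tl_eq, h4, val_xo_true hq] at h3
        rw [tl_eq, h1, val_xo_true hq] at hn01
        have h5 : (val q (sh (n0 + 1) ((es ∘ φ) k)) - val q (sh (n0 + 1) e)) / q ^ (n0 + 1)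
            < 0 := by linarith
        rw [div_neg_iff] at h5
        have hp : 0 < q ^ (n0 + 1) := by positivity
        have h6 : sh (n0 + 1) ((es ∘ φ) k) = sh (n0 + 1) (es (φ k)) := rfl
        rw [h6] at h5
        rcases h5 with h5 | h5
        · linarith
        · linarith
      apply hno
      rw [← hex]
      have hc1 : val q (sh (n0 + 1) e) = 1 := by
        rw [tl_eq, hen0, xo_false] at hn01
        exact hn01
      refine cover hq hq2 hen0 hc1 hmin ?_
      intro N
      obtain ⟨k, hk1, hk2⟩ := (hB.and (agree_of_tendsto he (n0 + 1 + N))).exists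
      have hk3 : val q ((es ∘ φ) k) = (xs ∘ φ) k := hesx (φ k)
      have h4 : es (φ k) n0 = false := by
        have := hk2 n0 (by omega)
        rw [← hen0, ← this]; rfl
      have htl : ∀ f : ℕ → Bool, f n0 = false → sh (n0 + 1) f = tl n0 f := by
        intro f hf
        rw [tl_eq, hf, xo_false]
      have hshWq : Wq q (sh (n0 + 1) e) := by
        rw [htl e hen0]; exact hWe.tl n0
      have hshWq' : Wq q (sh (n0 + 1) (es (φ k))) := by
        rw [htl _ h4]; exact (hes (φ k)).tl n0
      refine exists_per hq hqlt hshWq hc1 hshWq' ?_ ?_ ?_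
      · rw [htl _ h4]; exact hes (φ k) n0
      · intro heq
        apply hxne k
        have h5 := val_agree hq (d := es (φ k)) (d' := e) (n := n0 + 1)
          (fun i hi => hk2 i (by omega))
        rw [heq, sub_self, zero_div] at h5
        rw [← hk3]
        change val q (es (φ k)) = x
        linarith
      · intro i hi
        exact hk2 (n0 + 1 + i) (by omega)

end Pool.Agent.MP_e299c6_nt
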