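import Pool.Agent.MP_e299c6_nt.Univ

set_option autoImplicit false

namespace Pool.Agent.MP_e299c6_nt

open Filter Topology

/-- the periodic sequence `(c_0 … c_{m-1} 0)^∞` -/
def per (m : ℕ) (c : ℕ → Bool) : ℕ → Bool :=
  fun i => if i % (m + 1) = m then false else c (i % (m + 1))

theorem per_lt_m {m : ℕ} {c : ℕ → Bool} {i : ℕ} (hi : i < m) : per m c i = c i := by
  have h : i % (m + 1) = i := Nat.mod_eq_of_lt (by omega)
  simp only [per, h]
  rw [if_neg (by omega)]

theorem per_m {m : ℕ} {c : ℕ → Bool} : per m c m = false := by
  have h : m % (m + 1) = m := Nat.mod_eq_of_lt (by omega)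
  simp only [per, h, if_true]

theorem per_add {m : ℕ} {c : ℕ → Bool} (i : ℕ) : per m c (m + 1 + i) = per m c i := by
  simp only [per, Nat.add_mod_left]

theorem sh_per {m : ℕ} {c : ℕ → Bool} : sh (m + 1) (per m c) = per m c := by
  funext i; exact per_add i

theorem per_not_lt {m : ℕ} {c c' : ℕ → Bool} (hm : c m = true) (hag : ∀ i < m, c' i = c i)
    (hm' : c' m = false) (H1 : ∀ i, c i = false → ¬ Lt c (tl i c))
    (H2 : ∀ i, c' i = true → ¬ Lt c (tl i c')) :
    ∀ i, ¬ Lt (per m c) (tl i (per m c)) := by
  set P := per m c with hP
  have hP1 : ∀ i < m, P i = c i := fun i hi => per_lt_m hi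
  have hP2 : P m = false := per_m
  have hP3 : ∀ i, P (m + 1 + i) = P i := fun i => per_add i
  -- the case of a true digit
  have HT : ∀ j, ∀ i < m, P i = true →
      ¬ ((∀ k < j, P k = !P (i + 1 + k)) ∧ P j = false ∧ P (i + 1 + j) = false) := by
    intro j
    induction j using Nat.strong_induction_on with
    | _ j ih =>
      intro i hi hPi ⟨hk, hj0, hj1⟩
      by_cases hcase : i + 1 + j ≤ m
      · -- use H2
        have hc'P : ∀ k ≤ m, c' k = P k := by
          intro k hk
          rcases hk.eq_or_lt with h | h
          · rw [h, hm', hP2]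
          · rw [hag k h, hP1 k h]
        have hci : c' i = true := by rw [hc'P i hi.le, hPi]
        apply H2 i hci
        refine ⟨j, ?_, ?_, ?_⟩
        · intro k hkj
          rw [← hP1 k (by omega), hk k hkj]
          simp only [tl]
          rw [hci, hc'P (i + 1 + k) (by omega)]
          simp
        · rw [← hP1 j (by omega), hj0]
        · simp only [tl]
          rw [hci, hc'P (i + 1 + j) hcase, hj1]
          rfl
      · push Not at hcase
        -- j ≥ m - i
        have h1 : P (m - i - 1) = true := by
          rw [hk (m - i - 1) (by omega)]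
          have : i + 1 + (m - i - 1) = m := by omega
          rw [this, hP2]; rfl
        refine ih (j - (m - i)) (by omega) (m - i - 1) (by omega) h1 ⟨?_, ?_, ?_⟩
        · intro k hkj
          have h2 := hk (m - i + k) (by omega)
          have h3 : i + 1 + (m - i + k) = m + 1 + k := by omega
          rw [h3, hP3] at h2
          have h4 : m - i - 1 + 1 + k = m - i + k := by omega
          rw [h4, h2]; simp
        · have h3 : i + 1 + j = m + 1 + (j - (m - i)) := by omega
          rw [h3, hP3] at hj1
          exact hj1
        · have h4 : m - i - 1 + 1 + (j - (m - i)) = j := by omega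
          rw [h4]; exact hj0
  intro i
  induction i using Nat.strong_induction_on with
  | _ i ih =>
    by_cases him : m < i
    · have h1 : tl i P = tl (i - (m + 1)) P := by
        have h2 := tl_sh (i - (m + 1)) (m + 1) P
        rw [hP, sh_per, ← hP] at h2
        rw [h2]
        congr 1
        omega
      rw [h1]
      exact ih _ (by omega)
    · push Not at him
      rcases Bool.eq_false_or_eq_true (P i) with hPi | hPi
      · -- true digit
        have hi : i < m := by
          rcases him.eq_or_lt with h | h
          · rw [h, hP2] at hPi; exact absurd hPi (by simp)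
          · exact h
        rintro ⟨j, hk, hj0, hj1⟩
        refine HT j i hi hPi ⟨?_, hj0, ?_⟩
        · intro k hkj
          rw [hk k hkj]
          simp only [tl, hPi]
          simp
        · simp only [tl, hPi] at hj1
          simpa using hj1
      · rcases him.eq_or_lt with h | h
        · have h1 : tl i P = P := by
            rw [tl_eq, h, hP2, xo_false, hP, sh_per]
          rw [h1]
          rintro ⟨j, _, hj0, hj1⟩
          rw [hj0] at hj1
          exact absurd hj1 (by simp)
        · rintro ⟨j, hk, hj0, hj1⟩
          have hk' : ∀ k < j, P k = P (i + 1 + k) := by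
            intro k hkj
            rw [hk k hkj]
            simp only [tl, hPi]
            simp
          have hj1' : P (i + 1 + j) = true := by
            simp only [tl, hPi] at hj1
            simpa using hj1
          have hci : c i = false := by rw [← hP1 i h, hPi]
          apply H1 i hci
          rcases lt_trichotomy (i + 1 + j) m with hc | hc | hc
          · refine ⟨j, ?_, ?_, ?_⟩
            · intro k hkj
              rw [← hP1 k (by omega), hk' k hkj, hP1 (i + 1 + k) (by omega)]
              simp [tl, hci]
            · rw [← hP1 j (by omega), hj0]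
            · simp only [tl, hci]
              rw [← hP1 (i + 1 + j) hc, hj1']
              rfl
          · rw [hc, hP2] at hj1'
            exact absurd hj1' (by simp)
          · refine ⟨m - i - 1, ?_, ?_, ?_⟩
            · intro k hkj
              rw [← hP1 k (by omega), hk' k (by omega), hP1 (i + 1 + k) (by omega)]
              simp [tl, hci]
            · rw [← hP1 (m - i - 1) (by omega), hk' (m - i - 1) (by omega)]
              have : i + 1 + (m - i - 1) = m := by omega
              rw [this, hP2]
            · have : i + 1 + (m - i - 1) = m := by omega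
              simp only [tl, hci, this, hm]
              rfl

theorem uq_of_not_lt {P : ℕ → Bool} (hP : ∀ i, ¬ Lt P (tl i P)) {q : ℝ} (hq : 1 < q)
    (hv : val q P < 1) : Uq q P := by
  classical
  have hC : 0 < 1 / (q - 1) := by
    have : 0 < q - 1 := by linarith
    positivity
  have claim : ∀ N n, val q (tl n P) - val q P ≤ (1 / (q - 1)) / q ^ N := by
    intro N
    induction N with
    | zero =>
      intro n
      have h1 := val_le hq (tl n P)
      have h2 := val_nonneg hq P
      simp only [pow_zero, div_one]
      linarith
    | succ N ih =>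
      intro n
      have hpos : 0 < q ^ (N + 1) := by positivity
      by_cases hs : tl n P = P
      · rw [hs, sub_self]
        positivity
      · have hex : ∃ j, tl n P j ≠ P j := by
          by_contra hall
          push Not at hall
          exact hs (funext hall)
        have hj := Nat.find_spec hex
        have hmin : ∀ i < Nat.find hex, tl n P i = P i := fun i hi => by
          have := Nat.find_min hex hi
          simpa using this
        set j := Nat.find hex with hjdef
        rcases Bool.eq_false_or_eq_true (P j) with h1 | h1
        · have h2 : tl n P j = false := by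
            rcases Bool.eq_false_or_eq_true (tl n P j) with h2 | h2
            · exact absurd (h2.trans h1.symm) hj
            · exact h2
          have h3 := val_diff hq hmin h2 h1
          have h4 : sh (j + 1) (tl n P) = tl (n + 1 + j) P := by
            rw [← tl_tl, tl_eq j (tl n P), h2, xo_false]
          rw [h4] at h3
          have h5 := ih (n + 1 + j)
          have h6 := val_nonneg hq (sh (j + 1) P)
          have h7 : val q (tl n P) - val q P
              = (val q (tl (n + 1 + j) P) - 1 - val q (sh (j + 1) P)) / q ^ (j + 1) := by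
            have : val q (tl n P) - val q P = -(val q P - val q (tl n P)) := by ring
            rw [this, h3]; ring
          rw [h7]
          have hq0 : 0 < q := by linarith
          have h8 : (val q (tl (n + 1 + j) P) - 1 - val q (sh (j + 1) P)) / q ^ (j + 1)
              ≤ ((1 / (q - 1)) / q ^ N) / q ^ (j + 1) := by
            gcongr
            linarith
          refine h8.trans ?_
          have h9 : q ^ 1 ≤ q ^ (j + 1) := pow_le_pow_right₀ hq.le (by omega)
          have h10 : 0 < (1 / (q - 1)) / q ^ N := by positivity
          calc ((1 / (q - 1)) / q ^ N) / q ^ (j + 1) ≤ ((1 / (q - 1)) / q ^ N) / q ^ 1 := by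
                gcongr
            _ = (1 / (q - 1)) / q ^ (N + 1) := by
                rw [div_div, ← pow_add]
        · exfalso
          have h2 : tl n P j = true := by
            rcases Bool.eq_false_or_eq_true (tl n P j) with h2 | h2
            · exact h2
            · exact absurd (h2.trans h1.symm) hj
          exact hP n ⟨j, fun i hi => (hmin i hi).symm, h1, h2⟩
  intro n
  have hlim : Tendsto (fun N : ℕ => (1 / (q - 1)) / q ^ N) atTop (𝓝 0) := by
    have h3 : Tendsto (fun n : ℕ => 1 / (q - 1) * (1 / q) ^ n) atTop (𝓝 (1 / (q - 1) * 0)) :=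
      (tendsto_pow_atTop_nhds_zero_of_lt_one (by positivity)
        (by rw [div_lt_one (by linarith)]; exact hq)).const_mul _
    rw [mul_zero] at h3
    refine h3.congr (fun N => ?_)
    rw [one_div_pow, mul_one_div]
  have := ge_of_tendsto' hlim (fun N => claim N n)
  linarith

theorem per_val_lt_one {q : ℝ} (hq : 1 < q) {c : ℕ → Bool} {m : ℕ} (hc : val q c = 1)
    (hm : c m = true) (hz : 0 < val q (sh (m + 1) c)) : val q (per m c) < 1 := by
  have h := val_diff hq (d := per m c) (d' := c) (m := m) (fun i hi => per_lt_m hi) per_m hm
  rw [sh_per, hc] at h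
  have hp : 1 < q ^ (m + 1) := one_lt_pow₀ hq (by omega)
  have hp0 : 0 < q ^ (m + 1) := by linarith
  rw [eq_div_iff hp0.ne'] at h
  by_contra hcon
  push Not at hcon
  nlinarith

theorem not_lt_of_wq {q : ℝ} (hq : 1 < q) (hq2 : q < 2) {c s : ℕ → Bool} (hc : Wq q c)
    (hc1 : val q c = 1) (hs : Wq q s) (hs1 : val q s ≤ 1) : ¬ Lt c s := by
  rintro ⟨j, hj, h0, h1⟩
  have h := val_diff hq hj h0 h1
  have hp0 : 0 < q ^ (j + 1) := by positivity
  rw [eq_div_iff hp0.ne'] at h
  have h2 := hc j
  rw [tl_eq, h0, xo_false] at h2
  have h3 := hs j
  rw [tl_eq, h1, val_xo_true hq] at h3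
  have h4 : 1 < 1 / (q - 1) := by
    rw [lt_div_iff₀ (by linarith)]; linarith
  have h5 := val_nonneg hq (sh (j + 1) s)
  rw [hc1] at h
  have : (val q s - 1) * q ^ (j + 1) ≤ 0 := by
    apply mul_nonpos_of_nonpos_of_nonneg
    · linarith
    · exact hp0.le
  linarith

theorem Wq.tl {q : ℝ} {d : ℕ → Bool} (h : Wq q d) (n : ℕ) :
    Wq q (Pool.Agent.MP_e299c6_nt.tl n d) := by
  intro j
  rw [tl_tl]
  exact h _

theorem Uq.tl {q : ℝ} {d : ℕ → Bool} (h : Uq q d) (n : ℕ) :
    Uq q (Pool.Agent.MP_e299c6_nt.tl n d) := by
  intro j
  rw [tl_tl]
  exact h _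

/-- The key lemma on periodic approximations from below. -/
theorem exists_per {q : ℝ} (hq : 1 < q) (hq2 : q < 2) {c c' : ℕ → Bool} (hc : Wq q c)
    (hc1 : val q c = 1) (hc' : Wq q c') (hc'1 : val q c' ≤ 1) (hne : c' ≠ c) {N : ℕ}
    (hag : ∀ i < N, c' i = c i) :
    ∃ P : ℕ → Bool, (∀ i < N, P i = c i) ∧ val q P < 1 ∧
      ∀ q' : ℝ, 1 < q' → val q' P < 1 → Uq q' P := by
  classical
  have hex : ∃ n, c' n ≠ c n := by
    by_contra hall
    push Not at hall
    exact hne (funext hall)
  have hn := Nat.find_spec hex
  have hmin : ∀ i < Nat.find hex, c' i = c i := fun i hi => by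
    have := Nat.find_min hex hi
    simpa using this
  set m := Nat.find hex with hmdef
  have hNm : N ≤ m := by
    by_contra hlt
    push Not at hlt
    exact hn (hag m hlt)
  have hm1 : c m = true := by
    by_contra hcm
    have h0 : c m = false := by simpa using hcm
    have h1 : c' m = true := by
      rcases Bool.eq_false_or_eq_true (c' m) with h2 | h2
      · exact h2
      · exact absurd (h2.trans h0.symm) hn
    exact not_lt_of_wq hq hq2 hc hc1 hc' hc'1 ⟨m, fun i hi => (hmin i hi).symm, h0, h1⟩
  have hm0 : c' m = false := by
    rcases Bool.eq_false_or_eq_true (c' m) with h2 | h2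
    · exact absurd (h2.trans hm1.symm) hn
    · exact h2
  refine ⟨per m c, ?_, ?_, ?_⟩
  · intro i hi
    exact per_lt_m (by omega)
  · apply per_val_lt_one hq hc1 hm1
    have h := hc m
    rw [tl_eq, hm1, val_xo_true hq] at h
    have h4 : 1 < 1 / (q - 1) := by
      rw [lt_div_iff₀ (by linarith)]; linarith
    linarith
  · intro q' hq' hv
    refine uq_of_not_lt ?_ hq' hv
    refine per_not_lt hm1 hmin hm0 ?_ ?_
    · intro i _
      exact not_lt_of_wq hq hq2 hc hc1 (hc.tl i) (hc i)
    · intro i _
      exact not_lt_of_wq hq hq2 hc hc1 (hc'.tl i) (hc' i)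

/-- The same for base two. -/
theorem exists_per_two (N : ℕ) :
    ∃ P : ℕ → Bool, (∀ i < N, P i = true) ∧ val 2 P < 1 ∧
      ∀ q' : ℝ, 1 < q' → val q' P < 1 → Uq q' P := by
  have h2 : (1 : ℝ) < 2 := by norm_num
  have hv : val 2 (fun _ => true) = 1 := by rw [val_true h2]; norm_num
  refine ⟨per N (fun _ => true), fun i hi => per_lt_m hi, ?_, ?_⟩
  · apply per_val_lt_one h2 hv rfl
    have : sh (N + 1) (fun _ => true) = fun _ => true := by funext i; rfl
    rw [this, hv]; norm_num
  · intro q' hq' hv'
    refine uq_of_not_lt ?_ hq' hv'
    refine per_not_lt (c' := fun i => if i < N then true else false) rfl ?_ ?_ ?_ ?_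
    · intro i hi
      simp [hi]
    · simp
    · intro i hi
      exact absurd hi (by simp)
    · rintro i - ⟨j, _, h0, _⟩
      exact absurd h0 (by simp)

end Pool.Agent.MP_e299c6_nt
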