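import Pool.Agent.MP_e299c6_nt.Basic

set_option autoImplicit false

namespace Pool.Agent.MP_e299c6_nt

open Filter Topology

/-- remainders of the greedy algorithm -/
noncomputable def grem (q x : ℝ) : ℕ → ℝ
  | 0 => x
  | n + 1 => q * grem q x n - (if 1 ≤ q * grem q x n then 1 else 0)

theorem exists_expansion {q x : ℝ} (hq : 1 < q) (hq2 : q ≤ 2) (hx0 : 0 ≤ x)
    (hx : x ≤ 1 / (q - 1)) : ∃ d : ℕ → Bool, val q d = x := by
  classical
  have hq1 : 0 < q - 1 := by linarith
  have h1q : 1 ≤ 1 / (q - 1) := by rw [le_div_iff₀ hq1]; linarith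
  have hmul : 1 / (q - 1) * (q - 1) = 1 := by field_simp
  have inv : ∀ n, 0 ≤ grem q x n ∧ grem q x n ≤ 1 / (q - 1) := by
    intro n
    induction n with
    | zero => exact ⟨hx0, hx⟩
    | succ n ih =>
      obtain ⟨h1, h2⟩ := ih
      rw [grem]
      split_ifs with h
      · refine ⟨by linarith, ?_⟩
        have : q * grem q x n ≤ q * (1 / (q - 1)) := by gcongr
        nlinarith
      · push Not at h
        refine ⟨?_, by linarith⟩
        have : 0 ≤ q * grem q x n := by positivity
        linarith
  let b : ℕ → Bool := fun n => decide (1 ≤ q * grem q x n)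
  have hsum : ∀ n, x = (∑ i ∈ Finset.range n, (if b i then (1 : ℝ) else 0) / q ^ (i + 1))
      + grem q x n / q ^ n := by
    intro n
    induction n with
    | zero => simp [grem]
    | succ n ih =>
      rw [Finset.sum_range_succ]
      conv_lhs => rw [ih]
      rw [grem]
      have hq0 : q ≠ 0 := by linarith
      have hb : (if b n then (1 : ℝ) else 0) = (if 1 ≤ q * grem q x n then 1 else 0) := by
        simp [b]
      rw [hb]
      field_simp
      ring
  refine ⟨b, ?_⟩
  have ht1 := (summable_term hq b).hasSum.tendsto_sum_nat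
  have ht2 : Tendsto (fun n => ∑ i ∈ Finset.range n, (if b i then (1 : ℝ) else 0) / q ^ (i + 1))
      atTop (𝓝 x) := by
    have h3 : Tendsto (fun n : ℕ => 1 / (q - 1) * (1 / q) ^ n) atTop (𝓝 (1 / (q - 1) * 0)) :=
      (tendsto_pow_atTop_nhds_zero_of_lt_one (by positivity)
        (by rw [div_lt_one (by linarith)]; exact hq)).const_mul _
    rw [mul_zero] at h3
    have h4 : Tendsto (fun n : ℕ => x - 1 / (q - 1) * (1 / q) ^ n) atTop (𝓝 (x - 0)) :=
      tendsto_const_nhds.sub h3
    rw [sub_zero] at h4
    refine tendsto_of_tendsto_of_tendsto_of_le_of_le h4 tendsto_const_nhds ?_ ?_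
    · intro n
      have := hsum n
      have hg := (inv n).2
      have hp : 0 < q ^ n := by positivity
      have : grem q x n / q ^ n ≤ 1 / (q - 1) * (1 / q) ^ n := by
        rw [one_div_pow, mul_one_div]
        gcongr
      simp only
      linarith
    · intro n
      have := hsum n
      have hg := (inv n).1
      have hp : 0 < q ^ n := by positivity
      have : 0 ≤ grem q x n / q ^ n := by positivity
      simp only
      linarith
  exact tendsto_nhds_unique ht1 ht2

theorem unique_of_uq {q : ℝ} (hq : 1 < q) {d : ℕ → Bool} (h : Uq q d) {d' : ℕ → Bool}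
    (he : val q d' = val q d) : d' = d := by
  classical
  by_contra hne
  have hex : ∃ n, d' n ≠ d n := by
    by_contra hall
    push Not at hall
    exact hne (funext hall)
  have hn := Nat.find_spec hex
  have hmin : ∀ i < Nat.find hex, d' i = d i := fun i hi => by
    have := Nat.find_min hex hi
    simpa using this
  set n := Nat.find hex with hndef
  have hpos : 0 < q ^ (n + 1) := by positivity
  have hu := h n
  rw [tl_eq] at hu
  rcases Bool.eq_false_or_eq_true (d n) with h1 | h1
  · -- d n = true
    have h2 : d' n = false := by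
      rcases Bool.eq_false_or_eq_true (d' n) with h2 | h2
      · exact absurd (h2.trans h1.symm) hn
      · exact h2
    have h3 := val_diff hq hmin h2 h1
    rw [he, sub_self] at h3
    have h4 : 1 + val q (sh (n + 1) d) - val q (sh (n + 1) d') = 0 := by
      have := h3.symm
      rw [div_eq_zero_iff] at this
      rcases this with h | h
      · exact h
      · exact absurd h hpos.ne'
    rw [h1, val_xo_true hq] at hu
    have := val_le hq (sh (n + 1) d')
    linarith
  · have h2 : d' n = true := by
      rcases Bool.eq_false_or_eq_true (d' n) with h2 | h2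
      · exact h2
      · exact absurd (h2.trans h1.symm) hn
    have h3 := val_diff hq (fun i hi => (hmin i hi).symm) h1 h2
    rw [he, sub_self] at h3
    have h4 : 1 + val q (sh (n + 1) d') - val q (sh (n + 1) d) = 0 := by
      have := h3.symm
      rw [div_eq_zero_iff] at this
      rcases this with h | h
      · exact h
      · exact absurd h hpos.ne'
    rw [h1, xo_false] at hu
    have := val_nonneg hq (sh (n + 1) d')
    linarith

theorem uq_of_unique {q : ℝ} (hq : 1 < q) (hq2 : q ≤ 2) {d : ℕ → Bool}
    (h : ∀ d', val q d' = val q d → d' = d) : Uq q d := by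
  intro n
  by_contra hcon
  push Not at hcon
  rw [tl_eq] at hcon
  -- switching lemma
  have key : ∀ (b : Bool) (t : ℕ → Bool), (if b then (1 : ℝ) else 0) + val q t
      = (if d n then (1 : ℝ) else 0) + val q (sh (n + 1) d) → b = d n := by
    intro b t hbt
    let s : ℕ → Bool := fun i => if i = 0 then b else t (i - 1)
    have hs0 : s 0 = b := by simp [s]
    have hs1 : sh 1 s = t := by
      funext i; simp [sh, s]
    have hval : val q s = val q (sh n d) := by
      rw [val_succ hq s, val_succ hq (sh n d), hs0, hs1, sh_sh]
      have : sh n d 0 = d n := by simp [sh]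
      rw [this, hbt]
    have h1 := val_agree hq (d := cat n d s) (d' := d) (n := n) (cat_agree d s)
    rw [sh_cat, hval, sub_self, zero_div] at h1
    have h2 := h (cat n d s) (by linarith)
    have h3 : cat n d s n = d n := by rw [h2]
    have h4 : cat n d s n = b := by simp [cat, s]
    rw [← h4, h3]
  rcases Bool.eq_false_or_eq_true (d n) with h1 | h1
  · rw [h1, val_xo_true hq] at hcon
    obtain ⟨t, ht⟩ := exists_expansion (x := val q (sh (n + 1) d) + 1) hq hq2
      (by have := val_nonneg hq (sh (n + 1) d); linarith) (by linarith)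
    have := key false t (by rw [ht, h1]; simp; ring)
    rw [h1] at this
    exact absurd this (by simp)
  · rw [h1, xo_false] at hcon
    obtain ⟨t, ht⟩ := exists_expansion (x := val q (sh (n + 1) d) - 1) hq hq2
      (by linarith) (by have := val_le hq (sh (n + 1) d); linarith)
    have := key true t (by rw [ht, h1]; simp)
    rw [h1] at this
    exact absurd this (by simp)

theorem mem_univoqueBases_iff {q x : ℝ} : q ∈ univoqueBases x ↔
    1 < q ∧ q ≤ 2 ∧ ∃ d : ℕ → Bool, Uq q d ∧ val q d = x := by
  constructor
  · rintro ⟨hq, hq2, d, hd, hu⟩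
    refine ⟨hq, hq2, d, ?_, hd⟩
    apply uq_of_unique hq hq2
    intro d' hd'
    exact hu d' (hd'.trans hd)
  · rintro ⟨hq, hq2, d, hd, hx⟩
    refine ⟨hq, hq2, d, hx, ?_⟩
    intro d' hd'
    exact unique_of_uq hq hd (hd'.trans hx.symm)

end Pool.Agent.MP_e299c6_nt
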